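import Pool.Agent.H608.Ge.RootSer
import Pool.Agent.H608.Ge.OneVar
import Pool.Agent.H608.Ge.Omit
import Pool.Agent.H608.Ge.Jn
import Mathlib

/-!
# Towers of powers of `√2`, with very few omitted factors

`√2` is the product of the numbers `(1 - 1 / (4 k + 2) ^ 2)⁻¹`, `k ≥ 0`. For a set `E` of positive integers let `q_E`
be the product without the factors with `k ∈ E`. There are sets `E` with at most `C log log log K` elements up to `K`
such that all the towers `q_E, q_E ^ q_E, q_E ^ (q_E ^ q_E), …` are algebraically independent over any given countable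
ring `R` of real numbers, and all nonconstant polynomials in them with coefficients in `R` are normal in every
integer base, even jointly.
-/

set_option autoImplicit false

namespace Pool.Agent.Results.MP_93d8d2_nt.TowersFewOmitted

open Finset Filter Topology Metric
open Pool.Agent.H608.Sp Pool.Agent.H608.Ge

/-- the digit of `x` in base `b` at position `i` after the point -/
noncomputable def digit (b : ℕ) (x : ℝ) (i : ℕ) : ℤ := ⌊x * (b : ℝ) ^ i⌋ % (b : ℤ)

open Classical in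
/-- the tuple `x` is jointly normal in base `b`: every digit matrix with `n` rows and `m` columns
occurs along the positions with limiting frequency `b ^ (-(m * n))` -/
def JointlyNormal (b : ℕ) {n : ℕ} (x : Fin n → ℝ) : Prop :=
  ∀ m : ℕ, 1 ≤ m → ∀ D : Fin n → Fin m → Fin b,
    Tendsto (fun N : ℕ => (((Icc 1 N).filter fun i : ℕ =>
      ∀ (j : Fin n) (t : Fin m), digit b (x j) (i + (t : ℕ)) = ((D j t : ℕ) : ℤ)).card : ℝ) / (N : ℝ))
      atTop (𝓝 (1 / (b : ℝ) ^ (m * n)))

/-- `A` has at least `H exp (- (log H) ^ (2 / 5))` elements in `[H, 2 H)`, for all large `H` -/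
def NotTooSparse (A : Set ℕ) : Prop :=
  ∀ᶠ H : ℕ in atTop, H * Real.exp (-(Real.log H) ^ (2 / 5 : ℝ)) ≤
    (({k : ℕ | k ∈ A ∧ H ≤ k ∧ k < 2 * H}.ncard : ℕ) : ℝ)

open Classical in
/-- the product for `√2` without the factors with numbers in `E` -/
noncomputable def q (E : Set ℕ) : ℝ := ∏' k : ℕ, if k ∈ E then 1 else (1 - 1 / (4 * (k : ℝ) + 2) ^ 2)⁻¹

/-- the towers `q, q ^ q, q ^ (q ^ q), …` -/
noncomputable def tower (E : Set ℕ) : ℕ → ℝ
  | 0 => q E
  | n + 1 => q E ^ tower E n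

lemma jn_of_nt (b : ℕ) {n : ℕ} (x : Fin n → ℝ) (h : Pool.Agent.W206.ND.NT b x) :
    JointlyNormal b x := by
  intro m hm D
  have h1 := h m hm D
  refine h1.congr fun N => ?_
  congr 2

open Classical in
lemma q_eq (E : Set ℕ) : q E = Real.exp (∑' k : ℕ, if k ∈ E then 0 else vr k) := by
  have h1 : Summable fun k : ℕ => if k ∈ E then 0 else vr k := by
    refine (hasSum_vr_zero.summable.indicator {k | k ∉ E}).congr fun k => ?_
    simp only [Set.indicator, Set.mem_ofPred_eq]
    split_ifs <;> rfl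
  have h2 : ∀ k : ℕ, Real.log (if k ∈ E then 1 else (1 - 1 / (4 * (k : ℝ) + 2) ^ 2)⁻¹) =
      if k ∈ E then 0 else vr k := by
    intro k
    split_ifs
    · exact Real.log_one
    · exact Real.log_inv _
  unfold q
  rw [← Real.rexp_tsum_eq_tprod (f := fun k : ℕ => if k ∈ E then 1 else (1 - 1 / (4 * (k : ℝ) + 2) ^ 2)⁻¹)]
  · simp only [h2]
  · intro k
    split_ifs
    · exact one_pos
    · exact inv_pos.2 (fac_pos k)
  · simp only [h2]
    exact h1

lemma q_empty : q ∅ = Real.sqrt 2 := by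
  rw [q_eq]
  simp only [Set.mem_empty_iff_false, if_false]
  rw [hasSum_vr_zero.tsum_eq, Real.exp_log (by positivity)]

open Classical in
lemma q_eq' {E : Set ℕ} (h0 : 0 ∉ E) :
    q E = Real.exp (vr 0 + ∑' n : ℕ, if n + 1 ∈ E then 0 else vr (n + 1)) := by
  have h1 : Summable fun k : ℕ => if k ∈ E then 0 else vr k := by
    refine (hasSum_vr_zero.summable.indicator {k | k ∉ E}).congr fun k => ?_
    simp only [Set.indicator, Set.mem_ofPred_eq]
    split_ifs <;> rfl
  rw [q_eq, h1.tsum_eq_zero_add, if_neg h0]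

open Classical in
theorem result :
    -- without omitted factors: `√2`, `√2 ^ √2`, and the tower of the problem
    (q ∅ = Real.sqrt 2 ∧ tower ∅ 2 = Real.sqrt 2 ^ (Real.sqrt 2 ^ Real.sqrt 2)) ∧
    ∃ C : ℝ, 0 < C ∧ ∀ A : Set ℕ, NotTooSparse A → ∀ (M : ℕ) (r : ℝ), 0 < r → ∀ R : Subring ℝ, Countable R →
      ∃ E : Set ℕ, E ⊆ A ∧ (∀ m ∈ E, 1 ≤ m ∧ M ≤ m) ∧
        (∀ K : ℕ, 16 ≤ K → (({m : ℕ | m ∈ E ∧ m ≤ K}.ncard : ℕ) : ℝ) ≤
          C * Real.log (Real.log (Real.log K))) ∧
        |q E - Real.sqrt 2| < r ∧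
        AlgebraicIndependent R (tower E) ∧
        ∀ (n : ℕ) (P : Fin n → MvPolynomial ℕ R),
          (∀ v : Fin n → ℤ, v ≠ 0 → ∀ c, ∑ j, v j • P j ≠ MvPolynomial.C c) →
          ∀ b : ℕ, 2 ≤ b → JointlyNormal b fun j => MvPolynomial.aeval (tower E) (P j) := by
  refine ⟨⟨q_empty, ?_⟩, ?_⟩
  · show q ∅ ^ (q ∅ ^ q ∅) = _
    rw [q_empty]
  obtain ⟨C, hC, hmain⟩ := serOne
  refine ⟨C, hC, fun A hA M r hr R hR => ?_⟩
  have := countable_mv R
  have hs : (0 : ℝ) < Real.sqrt 2 := by positivity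
  -- a radius for the logarithm
  obtain ⟨ρ, hρ, hρr⟩ := Metric.continuousAt_iff.1
    (Real.continuous_exp.continuousAt (x := Real.log (Real.sqrt 2))) r hr
  obtain ⟨r', hr'⟩ : ∃ r', r' = min ρ 1 := ⟨_, rfl⟩
  have hr0 : 0 < r' := by rw [hr']; exact lt_min hρ one_pos
  have hr1 : r' ≤ 1 := by rw [hr']; exact min_le_right _ _
  have hrr : r' ≤ ρ := by rw [hr']; exact min_le_left _ _
  obtain ⟨E, z, _, hEA, hEK, hl, hz, _, hfreq, _⟩ := hmain serR serR_ne r' hr0 A hA M (Set.range (FR R))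
    (Set.countable_range _) (by
      rintro _ ⟨P, rfl⟩
      exact FR_analytic R P hr1) (by
      rintro _ ⟨P, rfl⟩ a _
      rw [FR_real, Complex.ofReal_im]) R hR
  have h0E : 0 ∉ E := fun h => by
    have := (hEA 0 h).2.2
    omega
  have e0 : z = ∑' n : ℕ, if n + 1 ∈ E then 0 else vr (n + 1) :=
    tendsto_nhds_unique hl (tendsto_omit hasSum_vr h0E)
  have e1 : q E = Real.exp (vr 0 + z) := by rw [q_eq' h0E, e0]
  have ht : tower E = fun i => twr i (Real.exp (vr 0 + z)) := by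
    funext i
    induction i with
    | zero => exact e1
    | succ i ih =>
      show q E ^ tower E i = Real.exp (vr 0 + z) ^ twr i (Real.exp (vr 0 + z))
      rw [ih, e1]
  have hP : ∀ P : MvPolynomial ℕ R, (∀ c, P ≠ MvPolynomial.C c) → ∀ b : ℕ, 2 ≤ b → Freq b (ev R (tower E) P) := by
    intro P hP b hb
    have h1 := hfreq _ ⟨P, rfl⟩ (FR_const R P hP hr0) b hb
    rw [FR_real, Complex.ofReal_re, ← ht] at h1
    exact h1
  refine ⟨E, fun k hk => (hEA k hk).1, fun k hk => ⟨(hEA k hk).2.2, (hEA k hk).2.1⟩, hEK, ?_,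
    algInd_of_freq R _ hP, fun n P hP' b hb => jn_of_nt b _ (nt_of_poly R _ hP P hP' b hb)⟩
  rw [e1]
  have h1 : dist (vr 0 + z) (Real.log (Real.sqrt 2)) < ρ := by
    rw [Real.dist_eq]
    have h2 : vr 0 + z - Real.log (Real.sqrt 2) = z - serR.x := by
      show vr 0 + z - Real.log (Real.sqrt 2) = z - (Real.log (Real.sqrt 2) - vr 0)
      ring
    rw [h2]
    exact hz.trans_le hrr
  have h3 := hρr h1
  rwa [Real.dist_eq, Real.exp_log hs] at h3

end Pool.Agent.Results.MP_93d8d2_nt.TowersFewOmitted
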